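import Pool.Agent.helper7.UL.Spec

/-!
# Project ul, row EXT (values near the macro times)
-/

set_option autoImplicit false

namespace Pool.Agent.UL

open Finset

lemma EXT_low (R o : ℕ) (hT : Tab R o) (j : ℕ) (hj : j < o) (B : ℤ) (hB : B < 0) :
    wv R (cell R o j 0) B = false := by
  have hR := hT.hR
  have h := hT.hfirst
  unfold first at h
  simp only [Bool.and_eq_true, List.all_eq_true, List.mem_range, beq_iff_eq] at h
  have h0 := h.1.1 j hj
  have key : ∀ i < R, (cell R o j 0).testBit i = false := by
    intro i hi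
    rw [h0]
    split_ifs
    · rw [Nat.testBit_two_pow, decide_eq_false_iff_not]
      omega
    · have h1 : 2 ^ R - 1 < 2 ^ (R + 4) := by
        have : 2 ^ R ≤ 2 ^ (R + 4) := Nat.pow_le_pow_right (by norm_num) (by omega)
        have : 0 < 2 ^ R := by positivity
        omega
      have h2 := Nat.testBit_two_pow_sub_succ h1 i
      have h3 : 2 ^ R - 1 + 1 = 2 ^ R := Nat.sub_add_cancel (Nat.one_le_two_pow)
      rw [h3] at h2
      rw [h2, Nat.testBit_two_pow_sub_one]
      simp [hi]
  unfold wv
  split_ifs with h1 h2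
  · exact key 0 (by omega)
  · omega
  · exact key _ (by omega)

theorem EXT : EXT_stmt := by
  intro R o W hT hW j hj A B hB1 hB2
  have hR := hT.hR
  have hWpos : (0 : ℤ) < (W : ℤ) := by omega
  have hA0 : (0 : ℤ) ≤ (A : ℤ) * W := mul_nonneg (by omega) hWpos.le
  rcases lt_or_ge B (-(R : ℤ)) with hlt | hge
  · -- left of the word
    rcases Nat.eq_zero_or_pos A with rfl | hApos
    · rw [EXT_low R o hT j hj B (by omega)]
      unfold Sf
      have : ¬ (0 ≤ ((0 : ℕ) : ℤ) * W + B) := by
        simp only [Nat.cast_zero, zero_mul, zero_add]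
        omega
      rw [decide_eq_false this, Bool.false_and]
    · obtain ⟨A', rfl⟩ : ∃ A', A = A' + 1 := ⟨A - 1, by omega⟩
      have hA' : (0 : ℤ) ≤ (A' : ℤ) * W := mul_nonneg (by omega) hWpos.le
      have hmA : mA R W (((A' + 1 : ℕ) : ℤ) * W + B) = A' := by
        unfold mA
        have e : ((A' + 1 : ℕ) : ℤ) * W + B + R = (W + B + R) + W * A' := by
          push_cast; ring
        rw [e, Int.add_mul_ediv_left _ _ hWpos.ne', Int.ediv_eq_zero_of_lt (by omega) (by omega)]
        simp
      unfold Sf
      rw [hmA]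
      have e2 : ((A' + 1 : ℕ) : ℤ) * W + B - (A' : ℤ) * W = W + B := by push_cast; ring
      have e3 : 0 ≤ ((A' + 1 : ℕ) : ℤ) * W + B := by
        have : ((A' + 1 : ℕ) : ℤ) * W + B = A' * W + (W + B) := by push_cast; ring
        omega
      rw [e2, decide_eq_true e3, Bool.true_and]
      have f1 : wv R (cell R o j A') ((W : ℤ) + B) = (cell R o j A').testBit (R + 3) := by
        unfold wv
        rw [if_neg (by omega), if_pos (by omega)]
      have f2 : wv R (cell R o j (A' + 1)) B = (cell R o j (A' + 1)).testBit 0 := by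
        unfold wv
        rw [if_pos hlt]
      rw [f1, f2, hT.hcont j hj A']
  · have hmA : mA R W ((A : ℤ) * W + B) = A := by
      unfold mA
      have e : (A : ℤ) * W + B + R = (B + R) + W * A := by ring
      rw [e, Int.add_mul_ediv_left _ _ hWpos.ne', Int.ediv_eq_zero_of_lt (by omega) (by omega)]
      simp
    unfold Sf
    rw [hmA]
    have e2 : (A : ℤ) * W + B - (A : ℤ) * W = B := by ring
    rw [e2]
    by_cases h0 : 0 ≤ (A : ℤ) * W + B
    · rw [decide_eq_true h0, Bool.true_and]
    · have hA : A = 0 := by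
        by_contra hne
        have h1 : (1 : ℤ) ≤ (A : ℤ) := by omega
        have h2 : (W : ℤ) ≤ (A : ℤ) * W := by nlinarith
        omega
      subst hA
      simp only [Nat.cast_zero, zero_mul, zero_add] at h0 ⊢
      rw [EXT_low R o hT j hj B (by omega), Bool.and_false]

end Pool.Agent.UL
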